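import Pool.Agent.Y7.EJ.StmO

/-!
# Project EJ, job LOW: the angle stays below `π/2 + hh n`
-/

open Set Filter Topology MeasureTheory

set_option autoImplicit false

namespace Pool.Agent.Y455.EJ

open Pool.Agent.Y5 (Y Pr Pr_cont Pr_deriv Pr_mono Pr_zero mono_of)
open Pool.Agent.Y5.D (vf3)
open Pool.Agent.Y7.EJ

variable {lm L C ℓ M hh : ℕ → ℝ} {B : ℕ → ℕ → ℝ} {T : ℝ} {x f : ℕ → ℝ → ℝ}

theorem gt_mono {n : ℕ} {τ t s : ℝ} (hG : Gt lm L hh T x n τ t) (hs : s ∈ Icc τ t) :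
    Gt lm L hh T x n τ s :=
  ⟨hs.1, hs.2.trans_lt hG.tT, fun r hr => hG.thr r ⟨hr.1, hr.2.trans hs.2⟩,
    fun r hr => hG.ang r ⟨hr.1, hr.2.trans hs.2⟩, fun r hr => hG.pos r ⟨hr.1, hr.2.trans hs.2⟩,
    fun r hr => hG.nx r ⟨hr.1, hr.2.trans hs.2⟩⟩

theorem A_deriv (g : Gd lm L C ℓ M hh B T x f) (n : ℕ) (τ : ℝ) {s : ℝ} (hs : s ∈ Ioo 0 T) :
    HasDerivAt (fun r => Aa lm L x n τ r) (L n * |x (n + 1) s|) s := by
  have h1 := Pr_deriv (g.cabs (n + 1)) hs
  have h2 := (h1.sub_const (Gd.I L x (n + 1) τ)).div_const (lm (n + 1))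
  have e : L (n + 1) * |x (n + 1) s| / lm (n + 1) = L n * |x (n + 1) s| := by
    rw [← g.sq.lm_succ n]
    have := slm g.sq (n + 1)
    field_simp
  rw [e] at h2
  exact h2

theorem A_cont (g : Gd lm L C ℓ M hh B T x f) (n : ℕ) (τ : ℝ) :
    ContinuousOn (fun r => Aa lm L x n τ r) (Ico 0 T) :=
  ((Pr_cont (g.cabs (n + 1))).sub continuousOn_const).div_const _

theorem A_zero (n : ℕ) (τ : ℝ) : Aa lm L x n τ τ = 0 := by
  unfold Aa
  rw [sub_self, zero_div]

/-- `A(t) ≤ L n (t - τ)` -/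
theorem A_lin (g : Gd lm L C ℓ M hh B T x f) (n : ℕ) {τ t : ℝ} (h0 : 0 ≤ τ) (hτ : τ ≤ t)
    (ht : t < T) : Aa lm L x n τ t ≤ L n * (t - τ) := by
  have hsub : Icc τ t ⊆ Ico 0 T := fun r hr => ⟨h0.trans hr.1, hr.2.trans_lt ht⟩
  have h1 := mono_of (f := fun r => L n * (r - τ) - Aa lm L x n τ r)
    (f' := fun r => L n - L n * |x (n + 1) r|) hτ
    (ContinuousOn.sub (by fun_prop) ((A_cont g n τ).mono hsub))
    (fun r hr => by
      have h2 : HasDerivAt (fun r => L n * (r - τ)) (L n) r := by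
        have := ((hasDerivAt_id r).sub_const τ).const_mul (L n)
        simpa using this
      exact h2.sub (A_deriv g n τ ⟨h0.trans_lt hr.1, hr.2.trans ht⟩))
    (fun r hr => by
      have h2 := g.abs_le_one (hsub ⟨hr.1.le, hr.2.le⟩) (n + 1)
      have h3 := sLp g.sq n
      nlinarith)
  simp only [A_zero, sub_self, mul_zero] at h1
  linarith

/-- the numbers -/
theorem nums (q : SeqP lm L C ℓ M hh B) (n : ℕ) :
    10 ^ 30 ≤ hh n ^ 2 * lm (n + 1) ∧ 10 ^ 30 ≤ hh n * lm (n + 1) ∧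
    2 * L (n + 1) * Real.exp (-(1 / 2) * lm (n + 2)) +
      (2 * L (n + 2) * eta lm (n + 2) ^ 2 + ph lm (n + 2)) ≤
      31 / 100 * (L (n + 1) * C (n + 1) * hh n ^ 2) ∧
    Real.exp (-(1 / 2) * lm (n + 2)) ≤ C (n + 1) := by
  have hp := q.hh_pos n
  have h9 := hh9 q n
  have hl1 : hh n ≤ 1 := by linarith
  have hm := slm q (n + 1)
  have hr : 10 ^ 30 ≤ hh n ^ 8 * lm (n + 1) := (q.lm_big n).trans (q.hh_ratio n)
  have h2 : 10 ^ 30 ≤ hh n ^ 2 * lm (n + 1) := by
    refine hr.trans (mul_le_mul_of_nonneg_right ?_ hm.le)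
    exact pow_le_pow_of_le_one hp.le hl1 (by norm_num)
  have h1 : 10 ^ 30 ≤ hh n * lm (n + 1) := by
    refine hr.trans (mul_le_mul_of_nonneg_right ?_ hm.le)
    calc hh n ^ 8 ≤ hh n ^ 1 := pow_le_pow_of_le_one hp.le hl1 (by norm_num)
      _ = hh n := pow_one _
  set E := EE lm (n + 1) with hE
  set w := Real.exp (-50 * lm (n + 1)) with hw
  have hEb : 10 ^ 45 ≤ E := EE_big q (n + 1)
  have hw0 : 0 < w := Real.exp_pos _
  have hz : Real.exp (-(1 / 2) * lm (n + 2)) ≤ w := by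
    refine (exp_next q (n + 1) (α := -(1 / 2)) (by norm_num)).trans ?_
    rw [hw]
    apply Real.exp_le_exp.2
    linarith
  have he : eta lm (n + 2) ^ 2 ≤ w := by
    have e : eta lm (n + 2) ^ 2 = Real.exp (-(28 / 10) * lm (n + 2)) := by
      rw [eta, ← Real.exp_nat_mul]
      congr 1
      push_cast
      ring
    rw [e]
    refine (exp_next q (n + 1) (α := -(28 / 10)) (by norm_num)).trans ?_
    rw [hw]
    apply Real.exp_le_exp.2
    linarith
  have hph : ph lm (n + 2) ≤ w := by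
    rw [ph_eq]
    refine (exp_next q (n + 1) (α := -1) (by norm_num)).trans ?_
    rw [hw]
    apply Real.exp_le_exp.2
    linarith
  have hC : E ^ 5 * w ≤ C (n + 1) :=
    (EE_exp q (n + 1) 5 (α := -50) (β := -(158 / 100)) (by norm_num)).trans (C_lo' q (n + 1))
  have hL1 := sL1 q (n + 1)
  have hL2p := sLp q (n + 2)
  have hLE1 : L (n + 1) ≤ E := EE_L q (by omega)
  have hLE2 : L (n + 2) ≤ E := EE_L q (by omega)
  have hmE : lm (n + 1) ≤ E := EE_lm' q le_rfl
  have hhE : 1 ≤ hh n * E := by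
    have h3 : hh n * lm (n + 1) ≤ hh n * E := mul_le_mul_of_nonneg_left hmE hp.le
    linarith
  have hhE2 : 1 ≤ hh n ^ 2 * E ^ 2 := by
    rw [← mul_pow]
    exact one_le_pow₀ hhE
  have hE0 : 0 < E := EE_pos _
  refine ⟨h2, h1, ?_, ?_⟩
  · have a1 : 2 * L (n + 1) * Real.exp (-(1 / 2) * lm (n + 2)) ≤ 2 * E * w := by gcongr
    have a2 : 2 * L (n + 2) * eta lm (n + 2) ^ 2 ≤ 2 * E * w := by gcongr
    have a3 : w ≤ E * w := by nlinarith
    have a4 : 31 / 100 * (E ^ 3 * w) ≤ 31 / 100 * (L (n + 1) * C (n + 1) * hh n ^ 2) := by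
      have b1 : E ^ 3 * w ≤ E ^ 3 * w * (hh n ^ 2 * E ^ 2) :=
        le_mul_of_one_le_right (by positivity) hhE2
      have b2 : E ^ 3 * w * (hh n ^ 2 * E ^ 2) = (E ^ 5 * w) * hh n ^ 2 := by ring
      have b3 : (E ^ 5 * w) * hh n ^ 2 ≤ C (n + 1) * hh n ^ 2 := by gcongr
      have b4 : C (n + 1) * hh n ^ 2 ≤ L (n + 1) * C (n + 1) * hh n ^ 2 := by
        have := sCp q (n + 1)
        rw [mul_assoc]
        exact le_mul_of_one_le_left (by positivity) hL1
      linarith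
    have a5 : 5 * (E * w) ≤ 31 / 100 * (E ^ 3 * w) := by
      have b1 : (100 : ℝ) ≤ E ^ 2 := by nlinarith
      have b2 : 0 < E * w := by positivity
      have b3 : E ^ 3 * w = E ^ 2 * (E * w) := by ring
      rw [b3]
      nlinarith
    linarith
  · refine hz.trans (le_trans ?_ hC)
    exact le_mul_of_one_le_left hw0.le (one_le_pow₀ (by linarith))


theorem t_LOW (hE : S_ERR) (hT : S_TIME) (hTa : S_TAIL) (hY : S_YP) (hN : S_NEG) : S_LOW := by
  intro lm L C ℓ M hh B T x f g n τ ρ t hS hG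
  have q := g.sq
  by_contra hcon
  push Not at hcon
  have hp := q.hh_pos n
  have h9 := hh9 q n
  have hp1 := q.hh_pos (n + 1)
  have h10 : hh (n + 1) ≤ hh n := by linarith [q.hh_succ n]
  have hm := slm q (n + 1)
  have hLp := sLp q n
  have hL1 := sLp q (n + 1)
  have hCp := sCp q (n + 1)
  obtain ⟨nu1, nu2, nu3, nu4⟩ := nums q n
  set z0 := Real.exp (-(1 / 2) * lm (n + 2)) with hz0
  have hz0p : 0 < z0 := Real.exp_pos _
  set tiny := 2 * L (n + 2) * eta lm (n + 2) ^ 2 + ph lm (n + 2) with htiny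
  have htinyp : 0 < tiny := by
    have := sLp q (n + 2)
    have := eta_pos (lm := lm) (n + 2)
    have := ph_pos lm (n + 2)
    positivity
  have hτ0 := hS.τ0
  have hτt := hG.τt
  have htT := hG.tT
  have hsub : Icc τ t ⊆ Ico 0 T := fun r hr => ⟨hτ0.trans hr.1, hr.2.trans_lt htT⟩
  have htI : t ∈ Ico 0 T := ⟨hτ0.trans hτt, htT⟩
  obtain ⟨hTi1, hTi2⟩ := hT lm L C ℓ M hh B T x f g n τ ρ t hS hG
  obtain ⟨-, -, hTail⟩ := hTa lm L C ℓ M hh B T x f g n τ ρ hS
  obtain ⟨ta1, -, -, ta4⟩ := hTail t hG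
  have hYs : ∀ s ∈ Icc τ t, 0 ≤ Aa lm L x n τ s ∧ 9 / 10 * hh n ≤ x (n + 1) s ∧
      (3 / 2 ≤ Aa lm L x n τ s → 8 / 10 ≤ x (n + 1) s) ∧
      x (n + 1) s ≤ Aa lm L x n τ s + 11 / 10 * hh n := fun s hs =>
    hY lm L C ℓ M hh B T x f g n τ ρ s hS (gt_mono hG hs)
  -- the mode `n + 2` is almost nonnegative
  have hneg : ∀ s ∈ Icc 0 t, -z0 ≤ x (n + 2) s := by
    refine hN lm L C ℓ M hh B T x f g (n + 1) t htI ?_ ?_ ta4
    · have h0 : 0 < lm 0 := slm q 0
      have h1 : (0 : ℝ) < (1 / 2) ^ (n + 1) := by positivity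
      nlinarith
    · refine (ta1 t ⟨hτt, le_rfl⟩).trans ?_
      have h1 := hG.ang t ⟨hτt, le_rfl⟩
      have h2 : lm (n + 1) * (Aa lm L x n τ t + 11 * hh n) ≤ lm (n + 1) * 2 := by
        gcongr
        linarith
      linarith
  -- derivative of the mode `n + 2`
  set Zd : ℝ → ℝ := fun s => vf3 L C ℓ B (fun k => x k s) (n + 2) + f (n + 2) s with hZd
  have herr : ∀ s ∈ Icc τ t, |Zd s - (L (n + 1) * x (n + 1) s * x (n + 2) s
      + L (n + 1) * C (n + 1) * x (n + 1) s ^ 2)| ≤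
      2 * hh (n + 1) ^ 4 * L (n + 1) * |x (n + 2) s| + tiny := by
    intro s hs
    have h1 := (hE lm L C ℓ M hh B T x f g s (hsub hs)).2.2 (n + 1)
    have h2 := ta4 s ⟨hτ0.trans hs.1, hs.2⟩
    have h3 : Y x (n + 3) s ≤ eta lm (n + 2) ^ 2 := by
      rw [← Real.sq_sqrt (Gd.Y_nonneg (x := x) (n + 3) s)]
      exact pow_le_pow_left₀ (Real.sqrt_nonneg _) h2 2
    have h4 : 2 * L (n + 2) * Y x (n + 3) s ≤ 2 * L (n + 2) * eta lm (n + 2) ^ 2 := by
      have := sLp q (n + 2)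
      gcongr
    refine h1.trans ?_
    change _ + 2 * L (n + 2) * Y x (n + 3) s + ph lm (n + 2) ≤ _
    linarith
  have h4s : hh (n + 1) ^ 4 ≤ hh n ^ 4 := pow_le_pow_left₀ hp1.le h10 4
  have h4n : hh n ^ 4 ≤ hh n / 1000 := by
    have e : hh n ^ 4 = hh n * (hh n ^ 3) := by ring
    have h1 : hh n ^ 3 ≤ 1 / 1000 := by
      calc hh n ^ 3 ≤ hh n ^ 1 := pow_le_pow_of_le_one hp.le (by linarith) (by norm_num)
        _ ≤ 1 / 1000 := by rw [pow_one]; linarith
    rw [e]
    nlinarith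
  -- (1)
  have hZ1 : ∀ s ∈ Icc τ t, 1 / 2 * (L (n + 1) * C (n + 1) * hh n ^ 2) ≤ Zd s := by
    intro s hs
    obtain ⟨-, y1, -, -⟩ := hYs s hs
    have e1 := (abs_le.1 (herr s hs)).1
    have y2 := le_of_abs_le (g.abs_le_one (hsub hs) (n + 1))
    have y3 : 81 / 100 * (L (n + 1) * C (n + 1) * hh n ^ 2)
        ≤ L (n + 1) * C (n + 1) * x (n + 1) s ^ 2 := by
      have h1 : (9 / 10 * hh n) ^ 2 ≤ x (n + 1) s ^ 2 := pow_le_pow_left₀ (by positivity) y1 2
      have h2 : L (n + 1) * C (n + 1) * (9 / 10 * hh n) ^ 2 ≤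
        L (n + 1) * C (n + 1) * x (n + 1) s ^ 2 := by gcongr
      nlinarith
    rcases le_total 0 (x (n + 2) s) with hz | hz
    · rw [abs_of_nonneg hz] at e1
      have h1 : 0 ≤ L (n + 1) * x (n + 2) s * (x (n + 1) s - 2 * hh (n + 1) ^ 4) :=
        mul_nonneg (mul_nonneg hL1.le hz) (by linarith)
      have h2 : 0 < 2 * L (n + 1) * z0 := by positivity
      nlinarith
    · rw [abs_of_nonpos hz] at e1
      have hz' := hneg s ⟨hτ0.trans hs.1, hs.2⟩
      have h1 : -(L (n + 1) * z0) ≤ L (n + 1) * x (n + 1) s * x (n + 2) s := by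
        have a1 : L (n + 1) * x (n + 1) s * (-(x (n + 2) s)) ≤ L (n + 1) * 1 * z0 := by
          have b1 : 0 ≤ x (n + 1) s := by linarith
          gcongr <;> linarith
        linarith
      have h2 : 2 * hh (n + 1) ^ 4 * L (n + 1) * (-(x (n + 2) s)) ≤ 1 * L (n + 1) * z0 := by
        have b1 : 2 * hh (n + 1) ^ 4 ≤ 1 := by linarith
        gcongr <;> linarith
      linarith
  have hZcont : ContinuousOn (x (n + 2)) (Icc τ t) := (g.cont (n + 2)).mono hsub
  have hZder : ∀ s ∈ Ioo τ t, HasDerivAt (x (n + 2)) (Zd s) s := fun s hs =>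
    g.derivAt (n + 2) ⟨hτ0.trans_lt hs.1, hs.2.trans htT⟩
  -- (2)
  set s1 := τ + 1 / (2 * L n) with hs1
  have hs1τ : τ ≤ s1 := by
    have : 0 < 1 / (2 * L n) := by positivity
    linarith
  have hs1t : s1 ≤ t := by
    have h1 := A_lin g n hτ0 hτt htT
    have h2 := Real.pi_gt_d2
    have h3 : 3 / 2 < L n * (t - τ) := by linarith
    have h4 : 1 / (2 * L n) ≤ t - τ := by
      rw [div_le_iff₀ (by positivity)]
      linarith
    linarith
  have hAs1 : Aa lm L x n τ s1 ≤ 72 / 100 * hh n := by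
    have hsub1 : Icc τ s1 ⊆ Ico 0 T := fun r hr => hsub ⟨hr.1, hr.2.trans hs1t⟩
    have h1 := mono_of
      (f := fun r => -(Real.exp (-(L n * (r - τ))) * (Aa lm L x n τ r + 11 / 10 * hh n)))
      (f' := fun r => -(Real.exp (-(L n * (r - τ))) * (-(L n)) *
        (Aa lm L x n τ r + 11 / 10 * hh n) +
        Real.exp (-(L n * (r - τ))) * (L n * |x (n + 1) r|))) hs1τ
      (by
        refine ContinuousOn.neg (ContinuousOn.mul (by fun_prop) ?_)
        exact ((A_cont g n τ).mono hsub1).add continuousOn_const)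
      (fun r hr => by
        have d1 : HasDerivAt (fun r => Real.exp (-(L n * (r - τ))))
            (Real.exp (-(L n * (r - τ))) * (-(L n))) r := by
          have := (((hasDerivAt_id r).sub_const τ).const_mul (L n)).fun_neg.exp
          simpa using this
        have d2 : HasDerivAt (fun r => Aa lm L x n τ r + 11 / 10 * hh n)
            (L n * |x (n + 1) r|) r :=
          (A_deriv g n τ ⟨hτ0.trans_lt hr.1, (hr.2.trans_le hs1t).trans htT⟩).add_const _
        exact (d1.mul d2).neg)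
      (fun r hr => by
        obtain ⟨-, y1, -, y2⟩ := hYs r ⟨hr.1.le, hr.2.le.trans hs1t⟩
        have y3 : |x (n + 1) r| = x (n + 1) r := abs_of_nonneg (by linarith)
        rw [y3]
        have h0 : 0 ≤ Real.exp (-(L n * (r - τ))) * L n * (Aa lm L x n τ r + 11 / 10 * hh n -
            x (n + 1) r) := mul_nonneg (by positivity) (by linarith)
        nlinarith)
    simp only [A_zero, sub_self, mul_zero, neg_zero, Real.exp_zero, zero_add, one_mul] at h1
    have e1 : L n * (s1 - τ) = 1 / 2 := by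
      rw [hs1]
      field_simp
      ring
    rw [e1] at h1
    have h2 : Real.exp (1 / 2) ≤ 165 / 100 := by
      have h3 : Real.exp (1 / 2) ^ 2 ≤ (165 / 100) ^ 2 := by
        rw [← Real.exp_nat_mul]
        have := Real.exp_one_lt_d9
        norm_num
        norm_num at this
        linarith
      exact le_of_pow_le_pow_left₀ two_ne_zero (by norm_num) h3
    have h4 : Real.exp (1 / 2) * Real.exp (-(1 / 2)) = 1 := by
      rw [← Real.exp_add]
      simp
    have h5 : Aa lm L x n τ s1 + 11 / 10 * hh n ≤ Real.exp (1 / 2) * (11 / 10 * hh n) := by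
      have h6 : Real.exp (-(1 / 2)) * (Aa lm L x n τ s1 + 11 / 10 * hh n) ≤ 11 / 10 * hh n := by
        linarith
      calc Aa lm L x n τ s1 + 11 / 10 * hh n
          = Real.exp (1 / 2) * (Real.exp (-(1 / 2)) * (Aa lm L x n τ s1 + 11 / 10 * hh n)) := by
            rw [← mul_assoc, h4, one_mul]
        _ ≤ _ := by gcongr
    have h6 : Real.exp (1 / 2) * (11 / 10 * hh n) ≤ 165 / 100 * (11 / 10 * hh n) := by gcongr
    linarith
  have hZs1 : C (n + 1) ≤ x (n + 2) s1 := by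
    have h1 := mono_of (f := fun r => x (n + 2) r -
        1 / 2 * (L (n + 1) * C (n + 1) * hh n ^ 2) * r)
      (f' := fun r => Zd r - 1 / 2 * (L (n + 1) * C (n + 1) * hh n ^ 2)) hs1τ
      ((hZcont.mono (Icc_subset_Icc_right hs1t)).sub (by fun_prop))
      (fun r hr => by
        have d1 := hZder r ⟨hr.1, hr.2.trans_le hs1t⟩
        have d2 : HasDerivAt (fun r => 1 / 2 * (L (n + 1) * C (n + 1) * hh n ^ 2) * r)
            (1 / 2 * (L (n + 1) * C (n + 1) * hh n ^ 2)) r := by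
          simpa using (hasDerivAt_id r).const_mul (1 / 2 * (L (n + 1) * C (n + 1) * hh n ^ 2))
        exact d1.sub d2)
      (fun r hr => by
        have := hZ1 r ⟨hr.1.le, hr.2.le.trans hs1t⟩
        linarith)
    have h2 := hneg τ ⟨hτ0, hτt⟩
    have e1 : 1 / 2 * (L (n + 1) * C (n + 1) * hh n ^ 2) * (s1 - τ) =
        (hh n ^ 2 * lm (n + 1)) / 4 * C (n + 1) := by
      rw [hs1, ← q.lm_succ n]
      field_simp
      ring
    have h3 : 2 * C (n + 1) ≤ (hh n ^ 2 * lm (n + 1)) / 4 * C (n + 1) := by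
      gcongr
      linarith
    have h4 : x (n + 2) τ + 1 / 2 * (L (n + 1) * C (n + 1) * hh n ^ 2) * (s1 - τ)
        ≤ x (n + 2) s1 := by
      linarith
    rw [e1] at h4
    linarith
  have hZpos : ∀ s ∈ Icc s1 t, 0 < x (n + 2) s := by
    intro s hs
    have h1 := mono_of (f := x (n + 2)) (f' := Zd) hs.1
      (hZcont.mono (Icc_subset_Icc hs1τ hs.2))
      (fun r hr => hZder r ⟨hs1τ.trans_lt hr.1, hr.2.trans_le hs.2⟩)
      (fun r hr => by
        have h2 := hZ1 r ⟨hs1τ.trans hr.1.le, hr.2.le.trans hs.2⟩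
        have h3 : 0 ≤ 1 / 2 * (L (n + 1) * C (n + 1) * hh n ^ 2) := by positivity
        linarith)
    linarith
  -- (3)
  set c := 2 * hh (n + 1) ^ 4 * L (n + 1) with hc
  have hψ := mono_of
    (f := fun r => x (n + 2) r * Real.exp (-(lm (n + 1) * Aa lm L x n τ r) + c * (r - s1)))
    (f' := fun r => Zd r * Real.exp (-(lm (n + 1) * Aa lm L x n τ r) + c * (r - s1)) +
      x (n + 2) r * (Real.exp (-(lm (n + 1) * Aa lm L x n τ r) + c * (r - s1)) *
        (-(lm (n + 1) * (L n * |x (n + 1) r|)) + c))) hs1t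
    (by
      refine (hZcont.mono (Icc_subset_Icc_left hs1τ)).mul (ContinuousOn.rexp ?_)
      refine ContinuousOn.add (ContinuousOn.neg (continuousOn_const.mul
        ((A_cont g n τ).mono fun r hr => hsub ⟨hs1τ.trans hr.1, hr.2⟩))) (by fun_prop))
    (fun r hr => by
      have d1 := hZder r ⟨hs1τ.trans_lt hr.1, hr.2⟩
      have d2 := (A_deriv g n τ (s := r) ⟨(hτ0.trans hs1τ).trans_lt hr.1, hr.2.trans htT⟩).const_mul
        (lm (n + 1))
      have d3 : HasDerivAt (fun r => c * (r - s1)) c r := by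
        simpa using ((hasDerivAt_id r).sub_const s1).const_mul c
      exact d1.mul ((d2.fun_neg.fun_add d3).exp))
    (fun r hr => by
      have hr' : r ∈ Icc τ t := ⟨hs1τ.trans hr.1.le, hr.2.le⟩
      have hz := hZpos r ⟨hr.1.le, hr.2.le⟩
      obtain ⟨-, y1, -, -⟩ := hYs r hr'
      have y3 : |x (n + 1) r| = x (n + 1) r := abs_of_nonneg (by linarith)
      have e1 := (abs_le.1 (herr r hr')).1
      rw [abs_of_pos hz] at e1
      have e2 : lm (n + 1) * (L n * x (n + 1) r) = L (n + 1) * x (n + 1) r := by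
        rw [← q.lm_succ n]
        ring
      rw [y3, e2]
      have y4 : tiny ≤ L (n + 1) * C (n + 1) * x (n + 1) r ^ 2 := by
        have h1 : (9 / 10 * hh n) ^ 2 ≤ x (n + 1) r ^ 2 := pow_le_pow_left₀ (by positivity) y1 2
        have h2 : L (n + 1) * C (n + 1) * (9 / 10 * hh n) ^ 2 ≤
          L (n + 1) * C (n + 1) * x (n + 1) r ^ 2 := by gcongr
        have h3 : 0 < 2 * L (n + 1) * z0 := by positivity
        have h4 : 0 ≤ L (n + 1) * C (n + 1) * hh n ^ 2 := by positivity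
        nlinarith
      have h5 : 0 ≤ Zd r - L (n + 1) * x (n + 1) r * x (n + 2) r + c * x (n + 2) r := by
        rw [hc]
        linarith
      have h6 : 0 ≤ Real.exp (-(lm (n + 1) * Aa lm L x n τ r) + c * (r - s1)) *
          (Zd r - L (n + 1) * x (n + 1) r * x (n + 2) r + c * x (n + 2) r) :=
        mul_nonneg (Real.exp_pos _).le h5
      nlinarith)
  simp only [sub_self, mul_zero, add_zero] at hψ
  -- conclusion
  have hfin : c * (t - s1) ≤ lm (n + 1) * (hh n / 100) := by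
    have a1 : c * (t - s1) ≤ 2 * hh n ^ 4 * (lm (n + 1) * (4 / hh n)) := by
      have b1 : L (n + 1) * (t - s1) ≤ lm (n + 1) * (4 / hh n) := by
        calc L (n + 1) * (t - s1) ≤ L (n + 1) * (t - τ) := by
              gcongr
          _ = lm (n + 1) * (L n * (t - τ)) := by rw [← q.lm_succ n]; ring
          _ ≤ _ := by gcongr
      have b2 : 0 ≤ L (n + 1) * (t - s1) := mul_nonneg hL1.le (by linarith)
      calc c * (t - s1) = 2 * hh (n + 1) ^ 4 * (L (n + 1) * (t - s1)) := by rw [hc]; ring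
        _ ≤ 2 * hh n ^ 4 * (L (n + 1) * (t - s1)) := by gcongr
        _ ≤ _ := by gcongr
    have a2 : 2 * hh n ^ 4 * (lm (n + 1) * (4 / hh n)) = lm (n + 1) * (8 * hh n ^ 3) := by
      field_simp
      ring
    have a3 : 8 * hh n ^ 3 ≤ hh n / 100 := by
      have b1 : hh n ^ 2 ≤ 1 / 1000 := by
        calc hh n ^ 2 ≤ hh n ^ 1 := pow_le_pow_of_le_one hp.le (by linarith) (by norm_num)
          _ ≤ 1 / 1000 := by rw [pow_one]; linarith
      have e : 8 * hh n ^ 3 = hh n * (8 * hh n ^ 2) := by ring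
      rw [e]
      nlinarith
    rw [a2] at a1
    exact a1.trans (by gcongr)
  have hZt : x (n + 2) t ≤ 1 := le_of_abs_le (g.abs_le_one htI (n + 2))
  have e1 : C (n + 1) * Real.exp (-(lm (n + 1) * Aa lm L x n τ s1)) ≤
      Real.exp (-(lm (n + 1) * Aa lm L x n τ t) + c * (t - s1)) := by
    calc C (n + 1) * Real.exp (-(lm (n + 1) * Aa lm L x n τ s1))
        ≤ x (n + 2) s1 * Real.exp (-(lm (n + 1) * Aa lm L x n τ s1)) := by gcongr
      _ ≤ x (n + 2) t * Real.exp (-(lm (n + 1) * Aa lm L x n τ t) + c * (t - s1)) := hψ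
      _ ≤ 1 * Real.exp (-(lm (n + 1) * Aa lm L x n τ t) + c * (t - s1)) := by gcongr
      _ = _ := one_mul _
  rw [q.C_eq, ← Real.exp_add, Real.exp_le_exp] at e1
  have e2 : lm (n + 1) * (Real.pi / 2 + hh n) < lm (n + 1) * Aa lm L x n τ t :=
    mul_lt_mul_of_pos_left hcon hm
  have e3 : lm (n + 1) * Aa lm L x n τ s1 ≤ lm (n + 1) * (72 / 100 * hh n) := by gcongr
  have e4 : 0 < lm (n + 1) * hh n := by positivity
  nlinarith

end Pool.Agent.Y455.EJ
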